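import Pool.Agent.U541.SP.Group

set_option autoImplicit false

/-!
# Checkerboard coloured diagrams: the maximum principle in counting form
-/

namespace Pool.Agent.U541.AG

open Pool.Agent.U541.SP

/-- A checkerboard coloured link diagram.  The corners of a crossing `c` are, in counterclockwise
order, in the regions `white c false`, `black c false`, `white c true`, `black c true`.  Four ends
of strands leave the crossing: for `i : Bool` the first end `(c, i)` leaves it between the corners
`white c i` and `black c i`, the second end `(c, i)` leaves it between `black c i` and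
`white c (!i)`.  Every strand joins a first end to a second end; `strand` maps the first to the
second one.  The regions on its two sides are the same at both ends. -/
structure Diagram where
  /-- the white regions -/
  White : Type
  /-- the black regions -/
  Black : Type
  /-- the crossings -/
  Crossing : Type
  finWhite : Finite White
  finBlack : Finite Black
  finCrossing : Finite Crossing
  white : Crossing → Bool → White
  black : Crossing → Bool → Black
  strand : Crossing × Bool ≃ Crossing × Bool
  strand_white : ∀ x, white (strand x).1 (!(strand x).2) = white x.1 x.2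
  strand_black : ∀ x, black (strand x).1 (strand x).2 = black x.1 x.2

/-- All regions of one colour are connected to the region `v₀` through crossings in `S`. -/
def Joined {V C : Type} (side : C → Bool → V) (S : Set C) (v₀ : V) : Prop :=
  ∀ v, Relation.ReflTransGen (fun a a' => ∃ c ∈ S, ∃ i, side c i = a ∧ side c (!i) = a') v₀ v

/-- In every action of the group `Y` by order automorphisms on a linear
order, `p` has no fixed point that is not fixed by `Y`, and `q` moves no point in the direction
opposite to `p`. -/
def LeadsHom (Y : Type) [Group Y] (p q : Y) : Prop :=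
  ∀ (Ω : Type) [LinearOrder Ω] (ρ : Y →* (Ω ≃o Ω)) (v : Ω),
    (ρ p v = v → ∀ g, ρ g v = v) ∧ (v < ρ p v → v ≤ ρ q v) ∧ (ρ p v < v → ρ q v ≤ v)

/-- `p` leads and `q` follows: whenever the group `Y` acts on a linear order by monotone maps, `p`
has no fixed point that is not fixed by `Y`, and `q` moves no point in the direction opposite to
`p`. -/
def Leads (Y : Type) [Group Y] (p q : Y) : Prop :=
  ∀ (Ω : Type) [LinearOrder Ω] [MulAction Y Ω], (∀ (g : Y) (v w : Ω), v ≤ w → g • v ≤ g • w) →
    ∀ v : Ω, (p • v = v → ∀ g : Y, g • v = v) ∧ (v < p • v → v ≤ q • v) ∧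
      (p • v < v → q • v ≤ v)

/-- a monotone action as a homomorphism -/
def toHom {Y Ω : Type} [Group Y] [LinearOrder Ω] [MulAction Y Ω]
    (h : ∀ (g : Y) (v w : Ω), v ≤ w → g • v ≤ g • w) : Y →* (Ω ≃o Ω) where
  toFun g :=
    { toFun := fun v => g • v
      invFun := fun v => g⁻¹ • v
      left_inv := fun v => inv_smul_smul g v
      right_inv := fun v => smul_inv_smul g v
      map_rel_iff' := fun {a b} => ⟨fun h1 => by
        have h2 := h g⁻¹ _ _ h1
        simpa using h2, fun h1 => h g a b h1⟩ }
  map_one' := by
    apply OrderIso.ext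
    funext u
    exact one_smul Y u
  map_mul' x y := by
    apply OrderIso.ext
    funext u
    exact mul_smul x y u

theorem leads_iff_hom {Y : Type} [Group Y] {p q : Y} : Leads Y p q ↔ LeadsHom Y p q := by
  constructor
  · intro h Ω _ ρ v
    let act : MulAction Y Ω :=
      { smul := fun g v => ρ g v
        one_smul := fun v => by
          show ρ 1 v = v
          rw [map_one]; rfl
        mul_smul := fun x y v => by
          show ρ (x * y) v = ρ x (ρ y v)
          rw [map_mul]; rfl }
    exact h Ω (fun g v w hvw => ((ρ g).le_iff_le).mpr hvw) v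
  · intro h Ω _ _ hm v
    exact h Ω (toHom hm) v

section rank
variable {W Ω : Type} [Fintype W] [LinearOrder Ω]

open Classical in
/-- the number of smaller values -/
noncomputable def rank (f : W → Ω) (w : W) : ℤ :=
  ((Finset.univ.filter fun x => f x < f w).card : ℤ)

theorem rank_le {f : W → Ω} {a b : W} (h : f a ≤ f b) : rank f a ≤ rank f b := by
  unfold rank
  norm_cast
  refine Finset.card_le_card fun x hx => ?_
  rw [Finset.mem_filter] at hx ⊢
  exact ⟨hx.1, hx.2.trans_le h⟩

theorem rank_lt {f : W → Ω} {a b : W} (h : f a < f b) : rank f a < rank f b := by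
  unfold rank
  norm_cast
  refine Finset.card_lt_card ?_
  rw [Finset.ssubset_iff_of_subset]
  · refine ⟨a, ?_, ?_⟩
    · rw [Finset.mem_filter]; exact ⟨Finset.mem_univ _, h⟩
    · rw [Finset.mem_filter]; exact fun hx => lt_irrefl _ hx.2
  · intro x hx
    rw [Finset.mem_filter] at hx ⊢
    exact ⟨hx.1, hx.2.trans h⟩

theorem eq_of_rank {f : W → Ω} {a b : W} (h : rank f a = rank f b) : f a = f b := by
  rcases lt_trichotomy (f a) (f b) with h1 | h1 | h1
  · exact absurd h (rank_lt h1).ne
  · exact h1
  · exact absurd h (rank_lt h1).ne'

end rank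

/-- Differences on the white and on the black side are orthogonal. -/
theorem orthogonal (D : Diagram) [Fintype D.Crossing] (F : D.White → ℤ) (K : D.Black → ℤ) :
    ∑ c, (F (D.white c true) - F (D.white c false)) *
      (K (D.black c false) - K (D.black c true)) = 0 := by
  have h1 : ∑ x : D.Crossing × Bool, F (D.white x.1 x.2) * K (D.black x.1 x.2) =
      ∑ x : D.Crossing × Bool, F (D.white x.1 (!x.2)) * K (D.black x.1 x.2) := by
    rw [← Equiv.sum_comp D.strand fun x => F (D.white x.1 (!x.2)) * K (D.black x.1 x.2)]
    refine Finset.sum_congr rfl fun x _ => ?_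
    rw [D.strand_white, D.strand_black]
  rw [Fintype.sum_prod_type, Fintype.sum_prod_type, ← sub_eq_zero,
    ← Finset.sum_sub_distrib] at h1
  rw [← neg_eq_zero, ← Finset.sum_neg_distrib, ← h1]
  refine Finset.sum_congr rfl fun c _ => ?_
  simp only [Fintype.sum_bool, Bool.not_true, Bool.not_false]
  ring

/-- The maximum principle. -/
theorem core (D : Diagram) {Ω : Type} [LinearOrder Ω] (f : D.White → Ω) (h : D.Black → Ω)
    (hc : ∀ c, (f (D.white c false) < f (D.white c true) →
        h (D.black c true) ≤ h (D.black c false)) ∧
      (f (D.white c true) < f (D.white c false) →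
        h (D.black c false) ≤ h (D.black c true))) (c : D.Crossing) :
    f (D.white c false) = f (D.white c true) ∨ h (D.black c false) = h (D.black c true) := by
  have := D.finWhite
  have := D.finBlack
  have := D.finCrossing
  have := Fintype.ofFinite D.White
  have := Fintype.ofFinite D.Black
  have := Fintype.ofFinite D.Crossing
  have h0 := orthogonal D (rank f) (rank h)
  have hn : ∀ c ∈ Finset.univ, 0 ≤ (rank f (D.white c true) - rank f (D.white c false)) *
      (rank h (D.black c false) - rank h (D.black c true)) := by
    intro c _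
    rcases lt_trichotomy (f (D.white c false)) (f (D.white c true)) with h1 | h1 | h1
    · exact mul_nonneg (sub_nonneg.mpr (rank_lt h1).le) (sub_nonneg.mpr (rank_le ((hc c).1 h1)))
    · have : rank f (D.white c true) = rank f (D.white c false) := by
        unfold rank; rw [h1]
      rw [this, sub_self, zero_mul]
    · exact mul_nonneg_of_nonpos_of_nonpos (sub_nonpos.mpr (rank_lt h1).le)
        (sub_nonpos.mpr (rank_le ((hc c).2 h1)))
  have h2 := (Finset.sum_eq_zero_iff_of_nonneg hn).mp h0 c (Finset.mem_univ c)
  rcases mul_eq_zero.mp h2 with h3 | h3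
  · exact Or.inl (eq_of_rank (sub_eq_zero.mp h3)).symm
  · exact Or.inr (eq_of_rank (sub_eq_zero.mp h3))

theorem const_of_joined {V C X : Type} {side : C → Bool → V} {S : Set C} {v₀ : V}
    (hj : Joined side S v₀) {f : V → X} (hf : ∀ c ∈ S, f (side c false) = f (side c true))
    (v : V) : f v = f v₀ := by
  have := hj v
  induction this with
  | refl => rfl
  | tail _ hab ih =>
    obtain ⟨c, hc, i, h1, h2⟩ := hab
    rw [← h2, ← ih, ← h1]
    cases i
    · exact (hf c hc).symm
    · exact hf c hc

section actions
variable (D : Diagram) {G Ω : Type} [Group G] [LinearOrder Ω] (ρ : G →* (Ω ≃o Ω))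
  {w : D.White → G} {b : D.Black → G} {p q : D.Crossing → G}

theorem white_lt (hp : ∀ c, (w (D.white c false))⁻¹ * w (D.white c true) = p c) (c : D.Crossing)
    (v : Ω) : ρ (w (D.white c true)) v = ρ (w (D.white c false)) (ρ (p c) v) := by
  rw [← hp c, map_mul, map_inv]
  show _ = ρ (w (D.white c false)) ((ρ (w (D.white c false))).symm (ρ (w (D.white c true)) v))
  rw [OrderIso.apply_symm_apply]

theorem black_lt (hq : ∀ c, (b (D.black c true))⁻¹ * b (D.black c false) = q c) (c : D.Crossing)
    (v : Ω) : ρ (b (D.black c false)) v = ρ (b (D.black c true)) (ρ (q c) v) := by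
  rw [← hq c, map_mul, map_inv]
  show _ = ρ (b (D.black c true)) ((ρ (b (D.black c true))).symm (ρ (b (D.black c false)) v))
  rw [OrderIso.apply_symm_apply]

/-- If at all crossings the white and the black elements do not move `v` in opposite directions
then at each crossing one of them fixes `v`. -/
theorem dichotomy (hp : ∀ c, (w (D.white c false))⁻¹ * w (D.white c true) = p c)
    (hq : ∀ c, (b (D.black c true))⁻¹ * b (D.black c false) = q c) (v : Ω)
    (h : ∀ c, (v < ρ (p c) v → v ≤ ρ (q c) v) ∧ (ρ (p c) v < v → ρ (q c) v ≤ v))
    (c : D.Crossing) : ρ (p c) v = v ∨ ρ (q c) v = v := by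
  have key := core D (fun x => ρ (w x) v) (fun x => ρ (b x) v) (fun c => by
    simp only [white_lt D ρ hp c v, black_lt D ρ hq c v, OrderIso.lt_iff_lt, OrderIso.le_iff_le]
    exact h c) c
  simp only [white_lt D ρ hp c v, black_lt D ρ hq c v] at key
  rcases key with k | k
  · exact Or.inl ((ρ (w (D.white c false))).injective k).symm
  · exact Or.inr ((ρ (b (D.black c true))).injective k)

/-- A point that is fixed at enough crossings is fixed by all regions. -/
theorem regions_fix (hp : ∀ c, (w (D.white c false))⁻¹ * w (D.white c true) = p c)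
    (hq : ∀ c, (b (D.black c true))⁻¹ * b (D.black c false) = q c) {w₀ : D.White} {b₀ : D.Black}
    (hw : w w₀ = 1) (hb : b b₀ = 1) {S T : Set D.Crossing} (hS : Joined D.white S w₀)
    (hT : Joined D.black T b₀) {v : Ω} (h1 : ∀ c ∈ S, ρ (p c) v = v)
    (h2 : ∀ c ∈ T, ρ (q c) v = v) : (∀ x, ρ (w x) v = v) ∧ ∀ x, ρ (b x) v = v := by
  constructor
  · intro x
    have := const_of_joined hS (f := fun x => ρ (w x) v) (fun c hc => by
      show ρ (w (D.white c false)) v = ρ (w (D.white c true)) v
      rw [white_lt D ρ hp c v, h1 c hc]) x
    simp only [hw, map_one] at this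
    exact this
  · intro x
    have := const_of_joined hT (f := fun x => ρ (b x) v) (fun c hc => by
      show ρ (b (D.black c false)) v = ρ (b (D.black c true)) v
      rw [black_lt D ρ hq c v, h2 c hc]) x
    simp only [hb, map_one] at this
    exact this

theorem crossings_fix (hp : ∀ c, (w (D.white c false))⁻¹ * w (D.white c true) = p c)
    (hq : ∀ c, (b (D.black c true))⁻¹ * b (D.black c false) = q c) {v : Ω}
    (h1 : ∀ x, ρ (w x) v = v) (h2 : ∀ x, ρ (b x) v = v) (c : D.Crossing) :
    ρ (p c) v = v ∧ ρ (q c) v = v := by
  constructor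
  · have := white_lt D ρ hp c v
    rw [h1] at this
    have h3 : ρ (w (D.white c false)) v = ρ (w (D.white c false)) (ρ (p c) v) := by
      rw [h1]; exact this
    exact ((ρ _).injective h3).symm
  · have := black_lt D ρ hq c v
    rw [h2] at this
    have h3 : ρ (b (D.black c true)) v = ρ (b (D.black c true)) (ρ (q c) v) := by
      rw [h2]; exact this
    exact ((ρ _).injective h3).symm

end actions

end Pool.Agent.U541.AG
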