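import Pool.Agent.U541.AG.Core

set_option autoImplicit false

/-!
# Pieces at the crossings
-/

namespace Pool.Agent.U541.AG

open Pool.Agent.U541.SP

section leads
variable {Y : Type} [Group Y] {p q : Y}

theorem LeadsHom.weak (h : LeadsHom Y q p) {Ω : Type} [LinearOrder Ω] (ρ : Y →* (Ω ≃o Ω)) (v : Ω) :
    (v < ρ p v → v ≤ ρ q v) ∧ (ρ p v < v → ρ q v ≤ v) := by
  obtain ⟨-, h2, h3⟩ := h Ω ρ v
  constructor
  · intro h4
    by_contra h5
    exact absurd (h3 (not_le.mp h5)) (not_le.mpr h4)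
  · intro h4
    by_contra h5
    exact absurd (h2 (not_le.mp h5)) (not_le.mpr h4)

end leads

section system
variable (D : Diagram) {G Ω : Type} [Group G] [LinearOrder Ω] (ρ : G →* (Ω ≃o Ω))
  {w : D.White → G} {b : D.Black → G} {Y : D.Crossing → Type} [∀ c, Group (Y c)]
  {k : ∀ c, Y c →* G} {p q : ∀ c, Y c} {P Q : Set D.Crossing}

/-- The points where the exceptional crossings do not move in opposite directions. -/
theorem half_fix (hp : ∀ c, (w (D.white c false))⁻¹ * w (D.white c true) = k c (p c))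
    (hq : ∀ c, (b (D.black c true))⁻¹ * b (D.black c false) = k c (q c))
    (hP : ∀ c ∈ P, LeadsHom (Y c) (p c) (q c)) (hQ : ∀ c ∈ Q, LeadsHom (Y c) (q c) (p c)) {v : Ω}
    (hO : ∀ c, c ∉ P → c ∉ Q → (v < ρ (k c (p c)) v → v ≤ ρ (k c (q c)) v) ∧
      (ρ (k c (p c)) v < v → ρ (k c (q c)) v ≤ v)) :
    (∀ c, ρ (k c (p c)) v = v ∨ ρ (k c (q c)) v = v) ∧
      (∀ c ∈ Q, ρ (k c (p c)) v = v) ∧ ∀ c ∈ P, ρ (k c (q c)) v = v := by
  have h0 : ∀ c, ρ (k c (p c)) v = v ∨ ρ (k c (q c)) v = v := by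
    refine dichotomy D ρ hp hq v fun c => ?_
    by_cases h1 : c ∈ P
    · obtain ⟨-, h3, h4⟩ := hP c h1 Ω (ρ.comp (k c)) v
      exact ⟨h3, h4⟩
    · by_cases h2 : c ∈ Q
      · exact (hQ c h2).weak (ρ.comp (k c)) v
      · exact hO c h1 h2
  refine ⟨h0, fun c hc => ?_, fun c hc => ?_⟩
  · rcases h0 c with h1 | h1
    · exact h1
    · exact (hQ c hc Ω (ρ.comp (k c)) v).1 h1 (p c)
  · rcases h0 c with h1 | h1
    · exact (hP c hc Ω (ρ.comp (k c)) v).1 h1 (q c)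
    · exact h1

/-- The pieces fix a point that is fixed by the peripheral elements. -/
theorem pieces_fix (hP : ∀ c ∈ P, LeadsHom (Y c) (p c) (q c))
    (hQ : ∀ c ∈ Q, LeadsHom (Y c) (q c) (p c)) {v : Ω}
    (h : ∀ c, ρ (k c (p c)) v = v ∧ ρ (k c (q c)) v = v)
    (hO : ∀ c, c ∉ P → c ∉ Q → Subgroup.closure {p c, q c} = ⊤) (c : D.Crossing) (y : Y c) :
    ρ (k c y) v = v := by
  by_cases h1 : c ∈ P
  · exact (hP c h1 Ω (ρ.comp (k c)) v).1 (h c).1 y
  · by_cases h2 : c ∈ Q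
    · exact (hQ c h2 Ω (ρ.comp (k c)) v).1 (h c).2 y
    · have h3 : (⊤ : Subgroup (Y c)) ≤ stab (ρ.comp (k c)) v := by
        rw [← hO c h1 h2, Subgroup.closure_le]
        rintro _ (rfl | rfl)
        · exact (h c).1
        · exact (h c).2
      exact h3 (Subgroup.mem_top y)

/-- If `v` is fixed by the white elements of the crossings in `S` and by the black elements of the
crossings in `T` then it is fixed by everything. -/
theorem all_fix (hp : ∀ c, (w (D.white c false))⁻¹ * w (D.white c true) = k c (p c))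
    (hq : ∀ c, (b (D.black c true))⁻¹ * b (D.black c false) = k c (q c))
    {w₀ : D.White} {b₀ : D.Black} (hw : w w₀ = 1) (hb : b b₀ = 1) {S T : Set D.Crossing}
    (hS : Joined D.white S w₀) (hT : Joined D.black T b₀)
    (hP : ∀ c ∈ P, LeadsHom (Y c) (p c) (q c)) (hQ : ∀ c ∈ Q, LeadsHom (Y c) (q c) (p c))
    (hO : ∀ c, c ∉ P → c ∉ Q → Subgroup.closure {p c, q c} = ⊤) {v : Ω}
    (h1 : ∀ c ∈ S, ρ (k c (p c)) v = v) (h2 : ∀ c ∈ T, ρ (k c (q c)) v = v) :
    ((∀ x, ρ (w x) v = v) ∧ ∀ x, ρ (b x) v = v) ∧ ∀ c y, ρ (k c y) v = v := by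
  have h3 := regions_fix D ρ hp hq hw hb hS hT h1 h2
  exact ⟨h3, pieces_fix D ρ hP hQ (crossings_fix D ρ hp hq h3.1 h3.2) hO⟩

end system

/-- positive combinations -/
theorem LeadsHom.cone {Y : Type} [Group Y] {p q : Y} (h : LeadsHom Y p q) (A B C E : ℕ) (hA : 1 ≤ A) :
    LeadsHom Y (p ^ A * q ^ B) (p ^ C * q ^ E) := by
  intro Ω _ ρ v
  obtain ⟨h1, h2, h3⟩ := h Ω ρ v
  obtain ⟨A, rfl⟩ := Nat.exists_eq_add_of_le' hA
  have up : ∀ {u : Ω ≃o Ω} {x : Ω}, x ≤ u x → ∀ k : ℕ, x ≤ (u ^ k) x := by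
    intro u x hx k
    induction k with
    | zero => exact le_rfl
    | succ k ih =>
      rw [pow_succ']
      show x ≤ u ((u ^ k) x)
      exact hx.trans ((u.le_iff_le).mpr ih)
  have down : ∀ {u : Ω ≃o Ω} {x : Ω}, u x ≤ x → ∀ k : ℕ, (u ^ k) x ≤ x := by
    intro u x hx k
    induction k with
    | zero => exact le_rfl
    | succ k ih =>
      rw [pow_succ']
      show u ((u ^ k) x) ≤ x
      exact ((u.le_iff_le).mpr ih).trans hx
  have e : ∀ i j : ℕ, ρ (p ^ i * q ^ j) v = (ρ p ^ i) ((ρ q ^ j) v) := by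
    intro i j
    rw [map_mul, map_pow, map_pow]; rfl
  have k1 : v < ρ p v → v < ρ (p ^ (A + 1) * q ^ B) v ∧ v ≤ ρ (p ^ C * q ^ E) v := by
    intro hv
    rw [e, e]
    constructor
    · exact (up_pow hv A).trans_le (((ρ p ^ (A + 1)).le_iff_le).mpr (up (h2 hv) B))
    · exact (up hv.le C).trans (((ρ p ^ C).le_iff_le).mpr (up (h2 hv) E))
  have k2 : ρ p v < v → ρ (p ^ (A + 1) * q ^ B) v < v ∧ ρ (p ^ C * q ^ E) v ≤ v := by
    intro hv
    rw [e, e]
    constructor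
    · exact (((ρ p ^ (A + 1)).le_iff_le).mpr (down (h3 hv) B)).trans_lt (down_pow hv A)
    · exact (((ρ p ^ C).le_iff_le).mpr (down (h3 hv) E)).trans (down hv.le C)
  rcases lt_trichotomy v (ρ p v) with h4 | h4 | h4
  · obtain ⟨h5, h6⟩ := k1 h4
    exact ⟨fun h7 => absurd h7 h5.ne', fun _ => h6, fun h7 => absurd h7 (not_lt.mpr h5.le)⟩
  · have h5 := h1 h4.symm
    exact ⟨fun _ => h5, fun _ => (h5 _).ge, fun _ => (h5 _).le⟩
  · obtain ⟨h5, h6⟩ := k2 h4
    exact ⟨fun h7 => absurd h7 h5.ne, fun h7 => absurd h7 (not_lt.mpr h5.le), fun _ => h6⟩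

/-- solid tori -/
theorem leads_cyclic (Y : Type) [Group Y] (t : Y) (ht : Subgroup.closure {t} = ⊤) (m n : ℕ)
    (hm : 1 ≤ m) : LeadsHom Y (t ^ m) (t ^ n) := by
  have h : LeadsHom Y t 1 := by
    intro Ω _ ρ v
    refine ⟨fun h => ?_, fun _ => ?_, fun _ => ?_⟩
    · have h1 := solid_cyclic Y t ht 1 one_ne_zero Ω ρ v
      rw [zpow_one] at h1
      exact h1 h
    · rw [map_one]; exact le_rfl
    · rw [map_one]; exact le_rfl
  have h2 := h.cone m 0 n 0 hm
  simpa using h2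

section klein
variable {Ω : Type} [LinearOrder Ω]

/-- `b` moves up `v` and `a v`, or down both: impossible; the two translates are separated by
`a`. -/
theorem klein_up {a b : Ω ≃o Ω} (h : a * b = b⁻¹ * a) {v : Ω} (hb : v < b v) (ha : v ≤ a v)
    (j : ℤ) : v < (a ^ 2 * b ^ j) v := by
  obtain ⟨hc, h1, h2⟩ := comm_of_klein h
  -- `b` moves `a v` down
  have h3 : ∀ n : ℕ, (b ^ n) v < a v := by
    intro n
    have h4 : ∀ n : ℕ, a v ≤ (b⁻¹ ^ n) (a v) := by
      intro n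
      have e : (b⁻¹ ^ n) (a v) = a ((b ^ n) v) := by
        have h5 : b⁻¹ ^ n * a = a * b ^ n := by
          have h6 : SemiconjBy a b b⁻¹ := h
          exact (h6.pow_right n).eq.symm
        exact congrArg (fun u : Ω ≃o Ω => u v) h5
      rw [e]
      refine (a.le_iff_le).mpr ?_
      rcases Nat.eq_zero_or_pos n with rfl | hn
      · exact le_rfl
      · obtain ⟨m, rfl⟩ := Nat.exists_eq_add_of_le' hn
        exact (up_pow hb m).le
    by_contra h5
    rw [not_lt] at h5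
    -- `a v ≤ b ^ n v`
    have h6 : (b⁻¹ ^ (n + 1)) (a v) ≤ b⁻¹ v := by
      have h7 : (b⁻¹ ^ (n + 1)) (a v) ≤ (b⁻¹ ^ (n + 1)) ((b ^ n) v) :=
        ((b⁻¹ ^ (n + 1)).le_iff_le).mpr h5
      refine h7.trans (le_of_eq ?_)
      have h8 : b⁻¹ ^ (n + 1) * b ^ n = b⁻¹ := by
        rw [pow_succ', mul_assoc, inv_pow, inv_mul_cancel, mul_one]
      exact congrArg (fun u : Ω ≃o Ω => u v) h8
    have h9 : b⁻¹ v < v := by
      rw [← (b.lt_iff_lt)]
      have : b (b⁻¹ v) = v := b.apply_symm_apply v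
      rw [this]; exact hb
    exact absurd ((ha.trans (h4 (n + 1))).trans h6) (not_le.mpr h9)
  have h4 : ∀ n : ℕ, (b ^ n) v < (a ^ 2) v := by
    intro n
    refine (h3 n).trans ?_
    have h5 : a v < a (a v) := (a.lt_iff_lt).mpr (by simpa using h3 0)
    rw [pow_two]; exact h5
  have h5 : ∀ i : ℤ, (b ^ i) v < (a ^ 2) v := by
    intro i
    obtain ⟨n, rfl | rfl⟩ := Int.eq_nat_or_neg i
    · rw [zpow_natCast]; exact h4 n
    · have h6 : (b ^ (-(n : ℤ))) v ≤ v := by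
        rw [zpow_neg, zpow_natCast]
        have h7 : v ≤ (b ^ n) v := by
          rcases Nat.eq_zero_or_pos n with rfl | hn
          · exact le_rfl
          · obtain ⟨m, rfl⟩ := Nat.exists_eq_add_of_le' hn
            exact (up_pow hb m).le
        rw [← ((b ^ n).le_iff_le)]
        have : (b ^ n) ((b ^ n)⁻¹ v) = v := (b ^ n).apply_symm_apply v
        rw [this]; exact h7
      exact h6.trans_lt (by simpa using h4 0)
  have h6 := h5 (-j)
  have h7 : (b ^ j) ((b ^ (-j)) v) < (b ^ j) ((a ^ 2) v) := ((b ^ j).lt_iff_lt).mpr h6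
  have e1 : (b ^ j) ((b ^ (-j)) v) = v := by
    have h8 : b ^ j * b ^ (-j) = 1 := by rw [← zpow_add, add_neg_cancel, zpow_zero]
    exact congrArg (fun u : Ω ≃o Ω => u v) h8
  have e2 : (b ^ j) ((a ^ 2) v) = (a ^ 2 * b ^ j) v := by
    have h8 : b ^ j * a ^ 2 = a ^ 2 * b ^ j := ((hc.zpow_right j).eq).symm
    exact congrArg (fun u : Ω ≃o Ω => u v) h8
  rw [e1, e2] at h7
  exact h7

/-- `a ^ 2 * b ^ j` moves a point that is not fixed by `b` in a direction independent of `j`. -/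
theorem klein_dir {a b : Ω ≃o Ω} (h : a * b = b⁻¹ * a) {v : Ω} (hb : b v ≠ v) :
    (∀ j : ℤ, v < (a ^ 2 * b ^ j) v) ∨ ∀ j : ℤ, (a ^ 2 * b ^ j) v < v := by
  -- first for points moved up by `b`
  have key : ∀ {b : Ω ≃o Ω}, a * b = b⁻¹ * a → v < b v →
      (∀ j : ℤ, v < (a ^ 2 * b ^ j) v) ∨ ∀ j : ℤ, (a ^ 2 * b ^ j) v < v := by
    intro b h hb
    rcases le_or_gt v (a v) with ha | ha
    · exact Or.inl fun j => klein_up h hb ha j
    · right
      intro j
      obtain ⟨hc, h1, h2⟩ := comm_of_klein h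
      have ha' : v ≤ a⁻¹ v := by
        have h3 : a v < a (a⁻¹ v) := by
          have : a (a⁻¹ v) = v := a.apply_symm_apply v
          rw [this]; exact ha
        exact ((a.lt_iff_lt).mp h3).le
      have h3 := klein_up (a := a⁻¹) h2 hb ha' (-j)
      have h4 : (a ^ 2 * b ^ j) v < (a ^ 2 * b ^ j) ((a⁻¹ ^ 2 * b ^ (-j)) v) :=
        ((a ^ 2 * b ^ j).lt_iff_lt).mpr h3
      have h5 : a ^ 2 * b ^ j * (a⁻¹ ^ 2 * b ^ (-j)) = 1 := by
        have h6 : b ^ j * a⁻¹ ^ 2 = a⁻¹ ^ 2 * b ^ j := by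
          rw [inv_pow]
          exact ((hc.inv_left.zpow_right j).eq).symm
        calc a ^ 2 * b ^ j * (a⁻¹ ^ 2 * b ^ (-j)) = a ^ 2 * (b ^ j * a⁻¹ ^ 2) * b ^ (-j) := by
              simp only [mul_assoc]
          _ = 1 := by rw [h6]; group
      have h6 : (a ^ 2 * b ^ j) ((a⁻¹ ^ 2 * b ^ (-j)) v) = v :=
        congrArg (fun u : Ω ≃o Ω => u v) h5
      rwa [h6] at h4
  rcases lt_trichotomy v (b v) with h1 | h1 | h1
  · exact key h h1
  · exact absurd h1.symm hb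
  · have h2 : v < b⁻¹ v := by
      rw [← (b.lt_iff_lt)]
      have : b (b⁻¹ v) = v := b.apply_symm_apply v
      rw [this]; exact h1
    have h3 : a * b⁻¹ = b⁻¹⁻¹ * a := by rw [inv_inv]; exact (comm_of_klein h).2.1
    rcases key h3 h2 with h4 | h4
    · left
      intro j
      have := h4 (-j)
      rwa [inv_zpow', neg_neg] at this
    · right
      intro j
      have := h4 (-j)
      rwa [inv_zpow', neg_neg] at this

theorem klein_dir_pow {a b : Ω ≃o Ω} (h : a * b = b⁻¹ * a) {v : Ω} (hb : b v ≠ v) :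
    (∀ (k : ℕ) (j : ℤ), 1 ≤ k → v < (a ^ (2 * k) * b ^ j) v) ∨
      ∀ (k : ℕ) (j : ℤ), 1 ≤ k → (a ^ (2 * k) * b ^ j) v < v := by
  have e : ∀ (k : ℕ) (j : ℤ), (a ^ (2 * (k + 1)) * b ^ j) v =
      ((a ^ 2) ^ k) ((a ^ 2 * b ^ j) v) := by
    intro k j
    have : a ^ (2 * (k + 1)) * b ^ j = (a ^ 2) ^ k * (a ^ 2 * b ^ j) := by
      rw [pow_mul, pow_succ, mul_assoc]
    exact congrArg (fun u : Ω ≃o Ω => u v) this
  rcases klein_dir h hb with h1 | h1
  · left
    intro k j hk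
    obtain ⟨k, rfl⟩ := Nat.exists_eq_add_of_le' hk
    rw [e]
    have h2 : v < (a ^ 2) v := by simpa using h1 0
    have h3 : v ≤ ((a ^ 2) ^ k) v := by
      rcases Nat.eq_zero_or_pos k with rfl | hn
      · exact le_rfl
      · obtain ⟨m, rfl⟩ := Nat.exists_eq_add_of_le' hn
        exact (up_pow h2 m).le
    exact h3.trans_lt ((((a ^ 2) ^ k).lt_iff_lt).mpr (h1 j))
  · right
    intro k j hk
    obtain ⟨k, rfl⟩ := Nat.exists_eq_add_of_le' hk
    rw [e]
    have h2 : (a ^ 2) v < v := by simpa using h1 0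
    have h3 : ((a ^ 2) ^ k) v ≤ v := by
      rcases Nat.eq_zero_or_pos k with rfl | hn
      · exact le_rfl
      · obtain ⟨m, rfl⟩ := Nat.exists_eq_add_of_le' hn
        exact (down_pow h2 m).le
    exact ((((a ^ 2) ^ k).lt_iff_lt).mpr (h1 j)).trans_le h3

end klein

/-- The twisted `I`-bundle over the Klein bottle. -/
theorem leads_klein (Y : Type) [Group Y] (a b : Y) (hgen : Subgroup.closure {a, b} = ⊤)
    (h : a * b = b⁻¹ * a) (k m : ℕ) (i j : ℤ) (hk : 1 ≤ k) (hm : 1 ≤ m) :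
    LeadsHom Y (a ^ (2 * k) * b ^ i) (a ^ (2 * m) * b ^ j) := by
  intro Ω _ ρ v
  have hρ : ρ a * ρ b = (ρ b)⁻¹ * ρ a := by rw [← map_mul, h, map_mul, map_inv]
  have e : ∀ (k : ℕ) (i : ℤ), ρ (a ^ (2 * k) * b ^ i) v = (ρ a ^ (2 * k) * ρ b ^ i) v := by
    intro k i; rw [map_mul, map_pow, map_zpow]
  refine ⟨fun h1 => ?_, ?_⟩
  · refine solid_klein Y a b hgen h k i (by omega) Ω ρ v ?_
    have : a ^ (2 * (k : ℤ)) = a ^ (2 * k) := by
      rw [← zpow_natCast]; congr 1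
    rw [this]; exact h1
  · rw [e, e]
    by_cases hb : ρ b v = v
    · have hbi : ∀ i : ℤ, (ρ b ^ i) v = v := by
        intro i
        have hid : ρ b ∈ stab (MonoidHom.id (Ω ≃o Ω)) v := hb
        exact zpow_mem hid i
      have e2 : ∀ (k : ℕ) (i : ℤ), (ρ a ^ (2 * k) * ρ b ^ i) v = (ρ a ^ (2 * k)) v := by
        intro k i
        show (ρ a ^ (2 * k)) ((ρ b ^ i) v) = _
        rw [hbi]
      rw [e2, e2]
      obtain ⟨k, rfl⟩ := Nat.exists_eq_add_of_le' hk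
      obtain ⟨m, rfl⟩ := Nat.exists_eq_add_of_le' hm
      have e3 : ∀ k : ℕ, 2 * (k + 1) = (2 * k + 1) + 1 := fun k => by ring
      rw [e3, e3]
      rcases lt_trichotomy v (ρ a v) with h1 | h1 | h1
      · exact ⟨fun _ => (up_pow h1 _).le, fun h2 => absurd h2 (not_lt.mpr (up_pow h1 _).le)⟩
      · have h2 : ∀ n : ℕ, (ρ a ^ n) v = v := by
          intro n
          have hid : ρ a ∈ stab (MonoidHom.id (Ω ≃o Ω)) v := h1.symm
          exact pow_mem hid n
        rw [h2, h2]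
        exact ⟨fun _ => le_rfl, fun _ => le_rfl⟩
      · exact ⟨fun h2 => absurd h2 (not_lt.mpr (down_pow h1 _).le), fun _ => (down_pow h1 _).le⟩
    · rcases klein_dir_pow hρ hb with h1 | h1
      · exact ⟨fun _ => (h1 m j hm).le, fun h2 => absurd h2 (not_lt.mpr (h1 k i hk).le)⟩
      · exact ⟨fun h2 => absurd h2 (not_lt.mpr (h1 k i hk).le), fun _ => (h1 m j hm).le⟩

end Pool.Agent.U541.AG
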