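import Pool.Agent.U541.AG.Main

set_option autoImplicit false

/-!
# Leading elements and left orders
-/

namespace Pool.Agent.U541.AG

open Pool.Agent.W705.Borr Pool.Agent.U541.SP

/-- A nontrivial group is left-orderable if it carries a strict total order that is invariant
under left multiplication. -/
def LeftOrderable (G : Type*) [Group G] : Prop :=
  Nontrivial G ∧ ∃ lt : G → G → Prop, IsStrictTotalOrder G lt ∧
    ∀ a b c : G, lt a b ↔ lt (c * a) (c * b)

/-- A strict total order that is invariant under left multiplication. -/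
def IsLeftOrder (Y : Type) [Group Y] (lt : Y → Y → Prop) : Prop :=
  IsStrictTotalOrder Y lt ∧ ∀ a b c : Y, lt a b ↔ lt (c * a) (c * b)

theorem lo_order {H : Type*} [Group H] (hH : LeftOrderable H) :
    ∃ _ : LinearOrder H, ∀ a b c : H, a ≤ b ↔ c * a ≤ c * b := by
  classical
  obtain ⟨_, lt, hlt, hinv⟩ := hH
  refine ⟨linearOrderOfSTO lt, ?_⟩
  intro a b c
  show (a = b ∨ lt a b) ↔ (c * a = c * b ∨ lt (c * a) (c * b))
  rw [mul_right_inj, ← hinv]

/-- left translations -/
def trans {H : Type} [Group H] [LinearOrder H] (hinv : ∀ a b c : H, a ≤ b ↔ c * a ≤ c * b) :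
    H →* (H ≃o H) where
  toFun c :=
    { toFun := fun x => c * x
      invFun := fun x => c⁻¹ * x
      left_inv := fun x => inv_mul_cancel_left c x
      right_inv := fun x => mul_inv_cancel_left c x
      map_rel_iff' := fun {a b} => (hinv a b c).symm }
  map_one' := by
    apply OrderIso.ext
    funext u
    exact one_mul u
  map_mul' x y := by
    apply OrderIso.ext
    funext u
    exact mul_assoc x y u

theorem trans_apply {H : Type} [Group H] [LinearOrder H]
    (hinv : ∀ a b c : H, a ≤ b ↔ c * a ≤ c * b) (c x : H) : trans hinv c x = c * x := rfl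

/-- the lexicographic order given by the orbit of a point -/
theorem lex {Y : Type} [Group Y] (hY : LeftOrderable Y) {Ω : Type} [LinearOrder Ω]
    (ρ : Y →* (Ω ≃o Ω)) (v : Ω) : ∃ lt : Y → Y → Prop, IsLeftOrder Y lt ∧
      (∀ a b, ρ a v < ρ b v → lt a b) ∧ ∀ a b, lt a b → ρ a v ≤ ρ b v := by
  obtain ⟨_, lt, hlt, hinv⟩ := hY
  refine ⟨fun a b => ρ a v < ρ b v ∨ (ρ a v = ρ b v ∧ lt a b), ⟨{
    trichotomous := ?_, irrefl := ?_, trans := ?_ }, ?_⟩, fun a b h => Or.inl h, ?_⟩
  · intro a b h1 h2
    rw [not_or, not_and, not_lt] at h1 h2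
    have e : ρ a v = ρ b v := le_antisymm h2.1 h1.1
    exact hlt.trichotomous a b (h1.2 e) (h2.2 e.symm)
  · rintro a (h1 | ⟨-, h1⟩)
    · exact lt_irrefl _ h1
    · exact hlt.irrefl a h1
  · rintro a b c (h1 | ⟨h1, h1'⟩) (h2 | ⟨h2, h2'⟩)
    · exact Or.inl (h1.trans h2)
    · exact Or.inl (h2 ▸ h1)
    · exact Or.inl (h1 ▸ h2)
    · exact Or.inr ⟨h1.trans h2, hlt.trans a b c h1' h2'⟩
  · intro a b c
    show _ ↔ ρ (c * a) v < ρ (c * b) v ∨ (ρ (c * a) v = ρ (c * b) v ∧ lt (c * a) (c * b))
    rw [map_mul, map_mul]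
    show _ ↔ ρ c (ρ a v) < ρ c (ρ b v) ∨ (ρ c (ρ a v) = ρ c (ρ b v) ∧ lt (c * a) (c * b))
    rw [(ρ c).lt_iff_lt, (ρ c).injective.eq_iff, ← hinv]
  · rintro a b (h | ⟨h, -⟩)
    · exact h.le
    · exact h.le

/-- the opposite order -/
theorem IsLeftOrder.swap {Y : Type} [Group Y] {lt : Y → Y → Prop} (h : IsLeftOrder Y lt) :
    IsLeftOrder Y fun a b => lt b a := by
  obtain ⟨hlt, hinv⟩ := h
  refine ⟨{ trichotomous := ?_, irrefl := ?_, trans := ?_ }, fun a b c => hinv b a c⟩
  · intro a b h1 h2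
    exact hlt.trichotomous a b h2 h1
  · intro a h1
    exact hlt.irrefl a h1
  · intro a b c h1 h2
    exact hlt.trans c b a h2 h1

/-- For left-orderable groups: `p` leads and `q` follows if and only if in every left order `p` is
cofinal (every element is at most some power of `p`), and `q` is not negative if `p` is positive. -/
theorem leads_iff (Y : Type) [Group Y] (p q : Y) (hY : LeftOrderable Y) :
    LeadsHom Y p q ↔ ∀ lt : Y → Y → Prop, IsLeftOrder Y lt →
      (∀ g, ∃ k : ℤ, g = p ^ k ∨ lt g (p ^ k)) ∧ (lt 1 p → ¬ lt q 1) := by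
  classical
  constructor
  · rintro h lt ⟨hlt, hinv'⟩
    let _ : LinearOrder Y := linearOrderOfSTO lt
    have hinv : ∀ a b c : Y, a ≤ b ↔ c * a ≤ c * b := by
      intro a b c
      show (a = b ∨ lt a b) ↔ (c * a = c * b ∨ lt (c * a) (c * b))
      rw [mul_right_inj, ← hinv']
    constructor
    · intro g
      set v : LowerSet Y := ⟨{x | ∃ k : ℤ, x ≤ p ^ k}, by
        rintro a b hba ⟨k, hk⟩
        exact ⟨k, hba.trans hk⟩⟩ with hv
      have mem_v : ∀ x : Y, x ∈ v ↔ ∃ k : ℤ, x ≤ p ^ k := fun x => Iff.rfl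
      have h1 : act hinv p v = v := by
        ext x
        rw [SetLike.mem_coe, SetLike.mem_coe, mem_act, mem_v, mem_v]
        constructor
        · rintro ⟨k, hk⟩
          refine ⟨k + 1, ?_⟩
          rw [hinv _ _ p⁻¹, add_comm, zpow_one_add, inv_mul_cancel_left]
          exact hk
        · rintro ⟨k, hk⟩
          refine ⟨k - 1, ?_⟩
          rw [hinv _ _ p, ← zpow_one_add, mul_inv_cancel_left]
          simpa using hk
      have h2 := (h (LowerSet Y) (actHom hinv (MonoidHom.id Y)) v).1 h1 g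
      have h3 : act hinv g v = v := h2
      have h4 : g ∈ act hinv g v := by
        rw [mem_act, inv_mul_cancel, mem_v]
        exact ⟨0, by rw [zpow_zero]⟩
      rw [h3, mem_v] at h4
      exact h4
    · intro h1 h2
      have h3 := (h Y (trans hinv) 1).2.1 (by
        rw [trans_apply, mul_one]; exact h1)
      rw [trans_apply, mul_one] at h3
      exact absurd (show q < 1 from h2) (not_lt.mpr h3)
  · intro h Ω _ ρ v
    obtain ⟨lt, hlt, l1, l2⟩ := lex hY ρ v
    have e1 : ρ 1 v = v := by rw [map_one]; rfl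
    refine ⟨fun hv g => ?_, fun hv => ?_, fun hv => ?_⟩
    · have hpow : ∀ k : ℤ, ρ (p ^ k) v = v := by
        intro k
        have h1 : p ∈ stab ρ v := hv
        exact zpow_mem h1 k
      apply le_antisymm
      · obtain ⟨k, hk⟩ := (h lt hlt).1 g
        rcases hk with hk | hk
        · rw [hk, hpow]
        · have := l2 _ _ hk
          rwa [hpow] at this
      · obtain ⟨k, hk⟩ := (h _ hlt.swap).1 g
        rcases hk with hk | hk
        · rw [hk, hpow]
        · have := l2 _ _ hk
          rwa [hpow] at this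
    · by_contra h1
      rw [not_le] at h1
      exact (h lt hlt).2 (l1 _ _ (by rw [e1]; exact hv)) (l1 _ _ (by rw [e1]; exact h1))
    · by_contra h1
      rw [not_le] at h1
      exact (h _ hlt.swap).2 (l1 _ _ (by rw [e1]; exact hv)) (l1 _ _ (by rw [e1]; exact h1))

end Pool.Agent.U541.AG
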